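import Pool.Agent.helper55.ZI.Spec2

/-!
# Project ZI, row OPN (helper51): basic open sets are given by an idempotent
-/

set_option autoImplicit false

namespace Pool.Agent.helper51.ZI

open Pool.Agent.ZI

universe u

/-- The action of a matrix on tuples of elements of a module. -/
def OPN_mv {R : Type u} [Ring R] {M : Type u} [AddCommGroup M] [Module R M] {m n : ℕ} (C : Matrix (Fin m) (Fin n) R)
    (x : Fin n → M) : Fin m → M := fun i => ∑ j, C i j • x j

theorem OPN_mul {R : Type u} [Ring R] {M : Type u} [AddCommGroup M] [Module R M] {m n k : ℕ} (A : Matrix (Fin m) (Fin k) R)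
    (B : Matrix (Fin k) (Fin n) R) (x : Fin n → M) : OPN_mv (A * B) x = OPN_mv A (OPN_mv B x) := by
  funext i
  unfold OPN_mv
  simp only [Matrix.mul_apply, Finset.sum_smul, mul_smul, Finset.smul_sum]
  rw [Finset.sum_comm]

theorem OPN_one {R : Type u} [Ring R] {M : Type u} [AddCommGroup M] [Module R M] {n : ℕ}
    (x : Fin n → M) : OPN_mv (1 : Matrix (Fin n) (Fin n) R) x = x := by
  funext i
  unfold OPN_mv
  rw [Finset.sum_eq_single i]
  · rw [Matrix.one_apply_eq, one_smul]
  · intro j _ hj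
    rw [Matrix.one_apply_ne (Ne.symm hj), zero_smul]
  · intro h
    exact absurd (Finset.mem_univ i) h

theorem OPN_sub {R : Type u} [Ring R] {M : Type u} [AddCommGroup M] [Module R M] {m n : ℕ} (A B : Matrix (Fin m) (Fin n) R)
    (x : Fin n → M) : OPN_mv (A - B) x = OPN_mv A x - OPN_mv B x := by
  funext i
  unfold OPN_mv
  rw [Pi.sub_apply, ← Finset.sum_sub_distrib]
  refine Finset.sum_congr rfl fun j _ => ?_
  rw [Matrix.sub_apply, sub_smul]

theorem OPN_zero {R : Type u} [Ring R] {M : Type u} [AddCommGroup M] [Module R M] {m n : ℕ}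
    (x : Fin n → M) : OPN_mv (0 : Matrix (Fin m) (Fin n) R) x = 0 := by
  funext i
  unfold OPN_mv
  refine Finset.sum_eq_zero fun j _ => ?_
  rw [Matrix.zero_apply, zero_smul]

theorem OPN_mv0 {R : Type u} [Ring R] {M : Type u} [AddCommGroup M] [Module R M] {m n : ℕ} (A : Matrix (Fin m) (Fin n) R) :
    OPN_mv A (0 : Fin n → M) = 0 := by
  funext i
  unfold OPN_mv
  refine Finset.sum_eq_zero fun j _ => ?_
  rw [Pi.zero_apply, smul_zero]

theorem OPN_single {R : Type u} [Ring R] {M : Type u} [AddCommGroup M] [Module R M] {m n : ℕ} (A : Matrix (Fin m) (Fin n) R)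
    (j : Fin n) (y : M) (i : Fin m) : OPN_mv A (Pi.single j y) i = A i j • y := by
  unfold OPN_mv
  rw [Finset.sum_eq_single j]
  · rw [Pi.single_eq_same]
  · intro l _ hl
    rw [Pi.single_eq_of_ne hl, smul_zero]
  · intro h
    exact absurd (Finset.mem_univ j) h

theorem OPN (hPPF : PPF_stmt.{u}) (hQIN : QIN_stmt.{u}) (hFGI : FGI_stmt.{u}) : OPN_stmt.{u} := by
  intro R _ S hS n φ ψ
  obtain ⟨m, C, hC⟩ := hPPF R S hS n φ
  obtain ⟨m', D, hD⟩ := hPPF R S hS n ψ
  obtain ⟨C', hC'⟩ := hQIN R S hS m n C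
  obtain ⟨Q, hQ⟩ : ∃ Q : Matrix (Fin n) (Fin n) R, Q = 1 - C' * C := ⟨_, rfl⟩
  have hCQ : C * Q = 0 := by
    rw [hQ, Matrix.mul_sub, Matrix.mul_one, ← Matrix.mul_assoc, hC', sub_self]
  obtain ⟨ε, q, h1, h2, h3⟩ := hFGI R S hS (m' * n)
    (fun t => (D * Q) (finProdFinEquiv.symm t).1 (finProdFinEquiv.symm t).2)
  refine ⟨ε, ?_⟩
  intro M _ _
  constructor
  · rintro ⟨x, hx1, hx2⟩
    have hx3 : OPN_mv C x = 0 := funext fun i => (hC M x).1 hx1 i
    have hx4 : OPN_mv Q x = x := by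
      rw [hQ, OPN_sub, OPN_one, OPN_mul, hx3, OPN_mv0, sub_zero]
    have hx5 : OPN_mv (D * Q) x = OPN_mv D x := by rw [OPN_mul, hx4]
    by_contra hc
    push Not at hc
    apply hx2
    refine (hD M x).2 fun i => ?_
    have h4 : OPN_mv D x i = 0 := by
      rw [← hx5]
      unfold OPN_mv
      refine Finset.sum_eq_zero fun j _ => ?_
      have h5 := h2 (finProdFinEquiv (i, j))
      simp only [Equiv.symm_apply_apply] at h5
      rw [← h5, mul_smul, hc (x j), smul_zero]
    exact h4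
  · rintro ⟨y, hy⟩
    have h4 : ∃ t : Fin (m' * n), (D * Q) (finProdFinEquiv.symm t).1 (finProdFinEquiv.symm t).2 • y ≠ 0 := by
      by_contra hc
      push Not at hc
      apply hy
      rw [h3, Finset.sum_smul]
      refine Finset.sum_eq_zero fun t _ => ?_
      rw [mul_smul, hc t, smul_zero]
    obtain ⟨t, ht⟩ := h4
    obtain ⟨i, j, hij⟩ : ∃ (i : Fin m') (j : Fin n), (D * Q) i j • y ≠ 0 := ⟨_, _, ht⟩
    refine ⟨OPN_mv Q (Pi.single j y), ?_, ?_⟩
    · refine (hC M _).2 fun l => ?_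
      have h5 : OPN_mv C (OPN_mv Q (Pi.single j y)) = 0 := by rw [← OPN_mul, hCQ, OPN_zero]
      exact congrFun h5 l
    · intro hc
      have h5 := (hD M _).1 hc i
      have h6 : OPN_mv D (OPN_mv Q (Pi.single j y)) i = (D * Q) i j • y := by rw [← OPN_mul, OPN_single]
      exact hij (h6.symm.trans h5)

end Pool.Agent.helper51.ZI
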